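import Pool.Agent.Helper36.EL.Defs
import Pool.Agent.Helper53.OW.Dec

/-!
# Project EL (MP_fb29e9_nt), block B: the two-dimensional sixth derivative test for the phases with `NdL`

`td2N`: `‖os (oct K) K i W φ R c‖ ≤ C K² (1 + log K) (R / K⁵)^(1/32)` for `K⁷ ≤ R²`, `R ≤ K⁵` (for the disc: Helper53.OW.td2).
-/

set_option autoImplicit false

namespace Pool.Agent.Helper36.EL

section

open Finset
open Pool.Agent.Helper22.AE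
open Pool.Agent.Helper92.GC
open Pool.Agent.Helper92.TD (S2)
open Pool.Agent.Helper76.OV (Cw sl os)
open Pool.Agent.Helper53.OW

/-- **a small square** -/
theorem sqN {c₁ B c₀ : ℝ} {ω : ℝ → ℝ} (hB : 1 ≤ B) (hω : ∀ ε, 0 < ε → 0 < ω ε) (hc₀ : 0 < c₀) : ∃ (C η : ℝ), 0 < C ∧ 0 < η ∧
    ∀ φ : ℝ → ℝ, C6m c₁ B ω φ → NdL c₀ φ →
    ∀ (R K : ℝ) (M H₁ H₂ H₃ H₄ : ℕ) (p : ℤ × ℤ) (c' : ℝ × ℝ), 0 < R → Pt K (cv p) → 1 ≤ M → 7 * (M : ℝ) ≤ η * K →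
    1 ≤ H₁ → 1 ≤ H₂ → 1 ≤ H₃ → 1 ≤ H₄ → H₁ ≤ M → H₂ ≤ M → H₃ ≤ M → H₄ ≤ M →
    (‖S2 (Rc p M M) (fun _ => 1) (phO R φ c')‖ / (M : ℝ) ^ 2) ^ 16 ≤
      C * (1 / (H₁ : ℝ) ^ 8 + 1 / (H₂ : ℝ) ^ 8 + 1 / (H₃ : ℝ) ^ 4 + 1 / (H₄ : ℝ) ^ 2 + (1 + Real.log M) ^ 2 * (R / K ^ 5 * H₁ * H₂ * H₃ * H₄) +
        (1 + Real.log M) ^ 3 / ((M : ℝ) ^ 2 * (R / K ^ 5 * H₁ * H₂ * H₃ * H₄))) := by
  obtain ⟨C₀, η, hC₀, hη, _, hfin⟩ := fin (c₁ := c₁) hB hω (c := c₀) hc₀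
  obtain ⟨C₁, hC₁, hw⟩ := weylD
  have hC₁0 : 0 < C₁ := by linarith
  refine ⟨C₁ * (1 + C₀), η, by positivity, hη, ?_⟩
  intro φ hφ hN R K M H₁ H₂ H₃ H₄ p c' hR hpt hM hMK h1 h2 h3 h4 m1 m2 m3 m4
  have hK := hpt.kp
  obtain ⟨v, hv⟩ : ∃ v : ℤ × ℤ, v = ((0 : ℤ), (1 : ℤ)) := ⟨_, rfl⟩
  have hv0 : v ≠ 0 := by
    intro h
    rw [hv] at h
    have := (Prod.ext_iff.1 h).2
    simp at this
  have hvn : nm v = 1 := by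
    unfold nm
    rw [hv]
    simp
  have hM1 : (1 : ℝ) ≤ M := by exact_mod_cast hM
  have hlog := Real.log_nonneg hM1
  have b1 : (1 : ℝ) ≤ H₁ := by exact_mod_cast h1
  have b2 : (1 : ℝ) ≤ H₂ := by exact_mod_cast h2
  have b3 : (1 : ℝ) ≤ H₃ := by exact_mod_cast h3
  have b4 : (1 : ℝ) ≤ H₄ := by exact_mod_cast h4
  have hnmv : ∀ j : ℤ, nm (mv1 v j) = ((|j| : ℤ) : ℝ) := by
    intro j
    rw [hv]
    unfold nm mv1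
    simp
  have hcvv : ∀ j : ℤ, (cv (mv1 v j)).1 = 0 := by
    intro j
    unfold cv mv1
    rw [hv]
    simp
  have hmain := hw M H₁ H₂ H₃ H₄ p v (phO R φ c') (C₀ * (1 + Real.log M) ^ 2) (R / K ^ 5) hM h1 h2 h3 h4 hv0
    (by rw [hvn, mul_one]; exact_mod_cast m1) m2 m3 m4 (by positivity) (by positivity) (fun j₁ w₂ w₃ w n1 n2 n3 hw0 l1 l2 l3 l4 Ω hΩ => by
      have p1 : (0 : ℝ) < ((|j₁| : ℤ) : ℝ) := by exact_mod_cast abs_pos.2 n1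
      have p2 := one_le_nm n2
      have p3 := one_le_nm n3
      have p4 := one_le_nm hw0
      have hpz : pz [w, w₃, w₂, mv1 v j₁] = ((|j₁| : ℤ) : ℝ) * nm w₂ * nm w₃ * nm w := by
        simp only [pz_cons, pz_nil, hnmv]
        ring
      have h5 := hfin φ hφ R K M p c' hR hpt hM hMK [w, w₃, w₂, mv1 v j₁] rfl (fun d hd => by
          simp only [List.mem_cons, List.not_mem_nil, or_false] at hd
          rcases hd with rfl | rfl | rfl | rfl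
          · exact l4.trans (by exact_mod_cast m4)
          · exact l3.trans (by exact_mod_cast m3)
          · exact l2.trans (by exact_mod_cast m2)
          · rw [hnmv]
            exact l1.trans (by exact_mod_cast m1)) (by
          rw [hpz]
          positivity) (fun w' => by
          have h6 := hN K (cv p) (cv (mv1 v j₁)) (cv w') (cv w) (cv w₃) (cv w₂) hpt (hcvv j₁)
          simp only [List.map_cons, List.map_nil]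
          refine le_trans (le_of_eq ?_) h6
          rw [hpz, norm_cv, norm_cv, norm_cv, norm_cv, norm_cv, hnmv]
          ring) Ω hΩ
      refine h5.trans (le_of_eq ?_)
      rw [hpz]
      ring) (Rc p M M) ⟨p, M, M, le_rfl, le_rfl, rfl, fun k hk => hk⟩
  refine hmain.trans ?_
  rw [mul_assoc C₁ (1 + C₀)]
  refine mul_le_mul_of_nonneg_left ?_ hC₁0.le
  obtain ⟨ℓ, hℓ⟩ : ∃ ℓ : ℝ, ℓ = 1 + Real.log M := ⟨_, rfl⟩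
  have hℓ0 : 0 < ℓ := by
    rw [hℓ]
    linarith
  rw [← hℓ]
  obtain ⟨Y, hY⟩ : ∃ Y : ℝ, Y = R / K ^ 5 * H₁ * H₂ * H₃ * H₄ := ⟨_, rfl⟩
  have hY0 : 0 < Y := by
    rw [hY]
    positivity
  rw [← hY]
  have h11 : 0 ≤ 1 / (H₁ : ℝ) ^ 8 + 1 / (H₂ : ℝ) ^ 8 + 1 / (H₃ : ℝ) ^ 4 + 1 / (H₄ : ℝ) ^ 2 := by positivity
  have h12 : 0 ≤ ℓ ^ 2 * Y := by positivity
  have h13 : 0 ≤ ℓ ^ 3 / ((M : ℝ) ^ 2 * Y) := by positivity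
  have h14 := mul_nonneg hC₀.le h11
  have e1 : C₀ * ℓ ^ 2 * Y = C₀ * (ℓ ^ 2 * Y) := by ring
  have e2 : C₀ * ℓ ^ 2 * ℓ / ((M : ℝ) ^ 2 * Y) = C₀ * (ℓ ^ 3 / ((M : ℝ) ^ 2 * Y)) := by ring
  rw [e1, e2]
  nlinarith

private lemma cube53N {K x z : ℝ} (hK : 64 ≤ K) (hx0 : 0 < x) (hx16 : x ^ 16 = K ^ 15) (hz : 1 ≤ z) (hz32 : z ^ 32 ≤ K ^ 3) :
    2 ≤ x ∧ 8 * z ^ 4 ≤ x ∧ z ^ 16 ≤ x ^ 2 := by
  have hK0 : 0 < K := by linarith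
  have hK1 : 1 ≤ K := by linarith
  have hz0 : 0 < z := by linarith
  refine ⟨?_, ?_, ?_⟩
  · refine (pow_le_pow_iff_left₀ (by norm_num) hx0.le (show (16 : ℕ) ≠ 0 by norm_num)).1 ?_
    rw [hx16]
    calc (2 : ℝ) ^ 16 ≤ 64 ^ 15 := by norm_num
      _ ≤ K ^ 15 := pow_le_pow_left₀ (by norm_num) hK 15
  · refine (pow_le_pow_iff_left₀ (by positivity) hx0.le (show (16 : ℕ) ≠ 0 by norm_num)).1 ?_
    rw [hx16]
    calc (8 * z ^ 4) ^ 16 = 8 ^ 16 * (z ^ 32) ^ 2 := by ring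
      _ ≤ 64 ^ 9 * (K ^ 3) ^ 2 := mul_le_mul (by norm_num) (pow_le_pow_left₀ (by positivity) hz32 2) (by positivity) (by positivity)
      _ ≤ K ^ 9 * (K ^ 3) ^ 2 := mul_le_mul_of_nonneg_right (pow_le_pow_left₀ (by norm_num) hK 9) (by positivity)
      _ = K ^ 15 := by ring
  · refine (pow_le_pow_iff_left₀ (by positivity) (by positivity) (show (8 : ℕ) ≠ 0 by norm_num)).1 ?_
    calc (z ^ 16) ^ 8 = (z ^ 32) ^ 4 := by rw [← pow_mul, ← pow_mul]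
      _ ≤ (K ^ 3) ^ 4 := pow_le_pow_left₀ (by positivity) hz32 4
      _ = K ^ 12 := by rw [← pow_mul]
      _ ≤ K ^ 15 := pow_le_pow_right₀ hK1 (by norm_num)
      _ = (x ^ 2) ^ 8 := by rw [← hx16, ← pow_mul]

/-- the range of `y = R/K⁵` -/
private lemma range53N {K R : ℝ} (hK : 0 < K) (h : K ^ 7 ≤ R ^ 2) : 1 ≤ (R / K ^ 5) ^ 2 * K ^ 3 := by
  have e : (R / K ^ 5) ^ 2 * K ^ 3 = R ^ 2 / K ^ 7 := by
    field_simp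
  rw [e, le_div_iff₀ (by positivity), one_mul]
  exact h

/-- a small square -/
theorem sqYN {c₁ B c₀ : ℝ} {ω : ℝ → ℝ} (hB : 1 ≤ B) (hω : ∀ ε, 0 < ε → 0 < ω ε) (hc₀ : 0 < c₀) : ∃ (C : ℝ) (K₀ : ℕ), 1 ≤ C ∧ 1 ≤ K₀ ∧
    ∀ φ : ℝ → ℝ, C6m c₁ B ω φ → NdL c₀ φ → ∀ (R : ℝ) (K : ℕ) (c' : ℝ × ℝ), K₀ ≤ K → 0 < R → (K : ℝ) ^ 7 ≤ R ^ 2 → R ≤ (K : ℝ) ^ 5 → ∀ p : ℤ × ℤ, Pt K (cv p) →
    ‖S2 (Rc p ⌊(K : ℝ) ^ (15 / 16 : ℝ)⌋₊ ⌊(K : ℝ) ^ (15 / 16 : ℝ)⌋₊) (fun _ => 1) (phO R φ c')‖ ≤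
      (⌊(K : ℝ) ^ (15 / 16 : ℝ)⌋₊ : ℝ) ^ 2 * (C * ((1 + Real.log K) * (R / (K : ℝ) ^ 5) ^ (1 / 32 : ℝ))) := by
  obtain ⟨C₀, η, hC₀, hη, hsq⟩ := sqN (c₁ := c₁) hB hω hc₀
  obtain ⟨K₀, hK₀⟩ := exists_nat_ge (64 + (7 / η) ^ 16)
  have hp2 : 0 ≤ (7 / η) ^ 16 := by positivity
  refine ⟨24 * C₀ + 1, K₀, by linarith, ?_, ?_⟩
  · have : (1 : ℝ) ≤ K₀ := by linarith
    exact_mod_cast this
  intro φ hφ hN R K c' hK hR0 hR1 hR2 p hp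
  have hKK : (K₀ : ℝ) ≤ K := by exact_mod_cast hK
  have hK4 : (64 : ℝ) ≤ K := by linarith
  have hK0 : (0 : ℝ) < K := by linarith
  have hKη : (7 / η) ^ 16 ≤ K := by linarith
  obtain ⟨y, hy⟩ : ∃ y : ℝ, y = R / (K : ℝ) ^ 5 := ⟨_, rfl⟩
  have hy0 : 0 < y := by rw [hy]; positivity
  have hy1 : y ≤ 1 := by
    rw [hy, div_le_one (by positivity)]
    exact hR2
  have hyK : 1 ≤ y ^ 2 * (K : ℝ) ^ 3 := by
    rw [hy]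
    exact range53N hK0 hR1
  obtain ⟨Y, hY⟩ : ∃ Y : ℝ, Y = y ^ (1 / 32 : ℝ) := ⟨_, rfl⟩
  have hY0 : 0 < Y := by rw [hY]; exact Real.rpow_pos_of_pos hy0 _
  have hY32 : Y ^ 32 = y := by
    rw [hY, ← Real.rpow_natCast, ← Real.rpow_mul hy0.le]
    norm_num
  have hY1 : Y ≤ 1 := by
    rw [hY]
    exact Real.rpow_le_one hy0.le hy1 (by norm_num)
  obtain ⟨z, hz⟩ : ∃ z : ℝ, z = 1 / Y ^ 2 := ⟨_, rfl⟩
  have hz0 : 0 < z := by rw [hz]; positivity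
  have hz1 : 1 ≤ z := by
    rw [hz, le_div_iff₀ (by positivity), one_mul]
    exact pow_le_one₀ hY0.le hY1
  have hzy : z ^ 16 * y = 1 := by
    rw [hz, ← hY32]
    field_simp
  have hz32 : z ^ 32 ≤ (K : ℝ) ^ 3 := by
    have h1 : z ^ 32 * 1 ≤ z ^ 32 * (y ^ 2 * (K : ℝ) ^ 3) := mul_le_mul_of_nonneg_left hyK (by positivity)
    calc z ^ 32 = z ^ 32 * 1 := by ring
      _ ≤ z ^ 32 * (y ^ 2 * (K : ℝ) ^ 3) := h1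
      _ = (z ^ 16 * y) ^ 2 * (K : ℝ) ^ 3 := by ring
      _ = _ := by rw [hzy, one_pow, one_mul]
  obtain ⟨x, hx⟩ : ∃ x : ℝ, x = (K : ℝ) ^ (15 / 16 : ℝ) := ⟨_, rfl⟩
  have hx0 : 0 < x := by rw [hx]; positivity
  have hx16 : x ^ 16 = (K : ℝ) ^ 15 := by
    rw [hx, ← Real.rpow_natCast, ← Real.rpow_mul hK0.le, ← Real.rpow_natCast]
    norm_num
  obtain ⟨hx2, hxq, hxz⟩ := cube53N hK4 hx0 hx16 hz1 hz32
  obtain ⟨M, hM⟩ : ∃ M : ℕ, M = ⌊x⌋₊ := ⟨_, rfl⟩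
  rw [← hx, ← hM, ← hy, ← hY]
  have hM1 : (M : ℝ) ≤ x := by
    rw [hM]
    exact Nat.floor_le hx0.le
  have hM2 : x / 2 ≤ M := by
    have := Nat.sub_one_lt_floor x
    rw [← hM] at this
    linarith
  have hM3 : (1 : ℝ) ≤ M := by linarith
  have hMn : 1 ≤ M := by exact_mod_cast hM3
  have hM0 : (0 : ℝ) < M := by linarith
  have hMη : 7 * (M : ℝ) ≤ η * K := by
    have h1 : 7 * x ≤ η * K := by
      refine (pow_le_pow_iff_left₀ (by positivity) (by positivity) (show (16 : ℕ) ≠ 0 by norm_num)).1 ?_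
      rw [mul_pow, hx16, mul_pow]
      have h2 : 7 ^ 16 ≤ η ^ 16 * K := by
        rw [div_pow, div_le_iff₀ (by positivity)] at hKη
        linarith
      calc (7 : ℝ) ^ 16 * (K : ℝ) ^ 15 ≤ η ^ 16 * K * (K : ℝ) ^ 15 := mul_le_mul_of_nonneg_right h2 (by positivity)
        _ = _ := by ring
    linarith
  -- the lengths
  have hlen : ∀ e : ℕ, 1 ≤ e → e ≤ 4 → z ^ e ≤ (⌈z ^ e⌉₊ : ℝ) ∧ (⌈z ^ e⌉₊ : ℝ) ≤ 2 * z ^ e ∧ 1 ≤ ⌈z ^ e⌉₊ ∧ ⌈z ^ e⌉₊ ≤ M := by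
    intro e he1 he4
    have h1 : 1 ≤ z ^ e := one_le_pow₀ hz1
    have h2 : z ^ e ≤ z ^ 4 := pow_le_pow_right₀ hz1 he4
    have h3 := (Nat.ceil_lt_add_one (show 0 ≤ z ^ e by positivity)).le
    refine ⟨Nat.le_ceil _, by linarith, Nat.one_le_ceil_iff.2 (by linarith), ?_⟩
    have h4 : ((⌈z ^ e⌉₊ : ℕ) : ℝ) ≤ M := by linarith
    exact_mod_cast h4
  obtain ⟨p1, p2, p3, p4⟩ := hlen 1 (by norm_num) (by norm_num)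
  obtain ⟨q1, q2, q3, q4⟩ := hlen 2 (by norm_num) (by norm_num)
  obtain ⟨r1, r2, r3, r4⟩ := hlen 4 (by norm_num) (by norm_num)
  obtain ⟨H₁, hH₁⟩ : ∃ H₁ : ℕ, H₁ = ⌈z ^ 1⌉₊ := ⟨_, rfl⟩
  obtain ⟨H₂, hH₂⟩ : ∃ H₂ : ℕ, H₂ = ⌈z ^ 2⌉₊ := ⟨_, rfl⟩
  obtain ⟨H₃, hH₃⟩ : ∃ H₃ : ℕ, H₃ = ⌈z ^ 4⌉₊ := ⟨_, rfl⟩
  rw [← hH₁] at p1 p2 p3 p4
  rw [← hH₂] at q1 q2 q3 q4
  rw [← hH₃] at r1 r2 r3 r4
  have hmain := hsq φ hφ hN R K M H₁ H₁ H₂ H₃ p c' hR0 hp hMn hMη p3 p3 q3 r3 p4 p4 q4 r4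
  rw [← hy] at hmain
  obtain ⟨Pp, hPi⟩ : ∃ Pp : ℝ, Pp = y * H₁ * H₁ * H₂ * H₃ := ⟨_, rfl⟩
  rw [← hPi] at hmain
  have b1 : (0 : ℝ) < H₁ := lt_of_lt_of_le (by positivity) p1
  have b2 : (0 : ℝ) < H₂ := lt_of_lt_of_le (by positivity) q1
  have b3 : (0 : ℝ) < H₃ := lt_of_lt_of_le (by positivity) r1
  have hyz : y * z ^ 8 = 1 / z ^ 8 := by
    rw [eq_div_iff (by positivity)]
    calc y * z ^ 8 * z ^ 8 = z ^ 16 * y := by ring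
      _ = 1 := hzy
  have hPi1 : 1 / z ^ 8 ≤ Pp := by
    rw [hPi, ← hyz]
    calc y * z ^ 8 = y * z ^ 1 * z ^ 1 * z ^ 2 * z ^ 4 := by ring
      _ ≤ _ := by gcongr
  have hPi2 : Pp ≤ 16 * (1 / z ^ 8) := by
    rw [hPi, ← hyz]
    calc y * H₁ * H₁ * H₂ * H₃ ≤ y * (2 * z ^ 1) * (2 * z ^ 1) * (2 * z ^ 2) * (2 * z ^ 4) := by gcongr
      _ = _ := by ring
  have hPi0 : 0 < Pp := lt_of_lt_of_le (by positivity) hPi1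
  obtain ⟨ℓ, hℓ⟩ : ∃ ℓ : ℝ, ℓ = 1 + Real.log K := ⟨_, rfl⟩
  have hMK : (M : ℝ) ≤ K := by
    refine hM1.trans ?_
    refine (pow_le_pow_iff_left₀ hx0.le hK0.le (show (16 : ℕ) ≠ 0 by norm_num)).1 ?_
    rw [hx16]
    exact pow_le_pow_right₀ (by linarith) (by norm_num)
  have hlM0 : 0 ≤ Real.log M := Real.log_nonneg hM3
  have hlM : Real.log M ≤ Real.log K := Real.log_le_log hM0 hMK
  have hℓ1 : 1 ≤ ℓ := by rw [hℓ]; linarith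
  have hℓM : 1 + Real.log M ≤ ℓ := by rw [hℓ]; linarith
  rw [← hℓ]
  have t1 : 1 / (H₁ : ℝ) ^ 8 ≤ 1 / z ^ 8 := by
    refine one_div_le_one_div_of_le (by positivity) ?_
    calc z ^ 8 = (z ^ 1) ^ 8 := by ring
      _ ≤ _ := pow_le_pow_left₀ (by positivity) p1 8
  have t2 : 1 / (H₂ : ℝ) ^ 4 ≤ 1 / z ^ 8 := by
    refine one_div_le_one_div_of_le (by positivity) ?_
    calc z ^ 8 = (z ^ 2) ^ 4 := by ring
      _ ≤ _ := pow_le_pow_left₀ (by positivity) q1 4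
  have t3 : 1 / (H₃ : ℝ) ^ 2 ≤ 1 / z ^ 8 := by
    refine one_div_le_one_div_of_le (by positivity) ?_
    calc z ^ 8 = (z ^ 4) ^ 2 := by ring
      _ ≤ _ := pow_le_pow_left₀ (by positivity) r1 2
  have t4 : (1 + Real.log M) ^ 2 * Pp ≤ ℓ ^ 3 * (16 * (1 / z ^ 8)) := by
    have h1 : (1 + Real.log M) ^ 2 ≤ ℓ ^ 3 := (pow_le_pow_left₀ (by linarith) hℓM 2).trans (pow_le_pow_right₀ hℓ1 (by norm_num))
    exact mul_le_mul h1 hPi2 hPi0.le (by positivity)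
  have t5 : (1 + Real.log M) ^ 3 / ((M : ℝ) ^ 2 * Pp) ≤ ℓ ^ 3 * (4 * (1 / z ^ 8)) := by
    have h1 : (1 + Real.log M) ^ 3 ≤ ℓ ^ 3 := pow_le_pow_left₀ (by linarith) hℓM 3
    have h2 : z ^ 8 / 4 ≤ (M : ℝ) ^ 2 * Pp := by
      have h3 : z ^ 16 / 4 ≤ (M : ℝ) ^ 2 := by
        have h4 : (x / 2) ^ 2 ≤ (M : ℝ) ^ 2 := pow_le_pow_left₀ (by positivity) hM2 2
        have h5 : (x / 2) ^ 2 = x ^ 2 / 4 := by ring
        linarith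
      calc z ^ 8 / 4 = (z ^ 16 / 4) * (1 / z ^ 8) := by
            field_simp
        _ ≤ _ := mul_le_mul h3 hPi1 (by positivity) (by positivity)
    rw [div_le_iff₀ (by positivity)]
    calc (1 + Real.log M) ^ 3 ≤ ℓ ^ 3 := h1
      _ = ℓ ^ 3 * (4 * (1 / z ^ 8)) * (z ^ 8 / 4) := by
        field_simp
      _ ≤ _ := mul_le_mul_of_nonneg_left h2 (by positivity)
  have hz8 : 1 / z ^ 8 = Y ^ 16 := by
    rw [hz]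
    field_simp
  have hfin : (‖S2 (Rc p M M) (fun _ => 1) (phO R φ c')‖ / (M : ℝ) ^ 2) ^ 16 ≤ ((24 * C₀ + 1) * (ℓ * Y)) ^ 16 := by
    refine hmain.trans ?_
    have h1 : 1 ≤ ℓ ^ 3 := one_le_pow₀ hℓ1
    have h2 : 0 ≤ 1 / z ^ 8 := by positivity
    have h3 : 1 / z ^ 8 ≤ ℓ ^ 3 * (1 / z ^ 8) := le_mul_of_one_le_left h2 h1
    have h4 : 1 / (H₁ : ℝ) ^ 8 + 1 / (H₁ : ℝ) ^ 8 + 1 / (H₂ : ℝ) ^ 4 + 1 / (H₃ : ℝ) ^ 2 + (1 + Real.log M) ^ 2 * Pp +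
        (1 + Real.log M) ^ 3 / ((M : ℝ) ^ 2 * Pp) ≤ 24 * (ℓ ^ 3 * (1 / z ^ 8)) := by linarith
    have h5 : ℓ ^ 3 ≤ ℓ ^ 16 := pow_le_pow_right₀ hℓ1 (by norm_num)
    have h6 : 24 * C₀ ≤ (24 * C₀ + 1) ^ 16 := by
      have h7 : (1 : ℝ) ≤ 24 * C₀ + 1 := by linarith
      have h8 := le_self_pow₀ h7 (show (16 : ℕ) ≠ 0 by norm_num)
      linarith
    calc C₀ * _ ≤ C₀ * (24 * (ℓ ^ 3 * (1 / z ^ 8))) := mul_le_mul_of_nonneg_left h4 hC₀.le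
      _ = (24 * C₀) * (ℓ ^ 3 * Y ^ 16) := by
        rw [hz8]
        ring
      _ ≤ (24 * C₀ + 1) ^ 16 * (ℓ ^ 16 * Y ^ 16) := by gcongr
      _ = _ := by ring
  have hres : ‖S2 (Rc p M M) (fun _ => 1) (phO R φ c')‖ / (M : ℝ) ^ 2 ≤ (24 * C₀ + 1) * (ℓ * Y) :=
    (pow_le_pow_iff_left₀ (by positivity) (by positivity) (show (16 : ℕ) ≠ 0 by norm_num)).1 hfin
  rw [div_le_iff₀ (by positivity)] at hres
  linarith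

/-- the two-dimensional sixth derivative test, general phase -/
theorem td2N' {c₁ B c₀ : ℝ} {ω : ℝ → ℝ} (hB : 1 ≤ B) (hω : ∀ ε, 0 < ε → 0 < ω ε) (hc₀ : 0 < c₀) : ∃ C : ℝ, 0 < C ∧
    ∀ φ : ℝ → ℝ, C6m c₁ B ω φ → NdL c₀ φ → ∀ W : ℝ → ℂ, Cw B W → ∀ (R : ℝ) (K : ℕ), 1 ≤ R → 1 ≤ K → (K : ℝ) ^ 7 ≤ R ^ 2 → R ≤ (K : ℝ) ^ 5 →
      ∀ i : ℕ, i ≤ 2 → ∀ c : ℝ × ℝ,
        ‖os (oct K) K i W φ R c‖ ≤ C * ((K : ℝ) ^ 2 * (1 + Real.log K) * (R / (K : ℝ) ^ 5) ^ (1 / 32 : ℝ)) := by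
  obtain ⟨C, K₀, hC, hK₀, hsq⟩ := sqYN (c₁ := c₁) hB hω hc₀
  have hB0 : 0 < B := by linarith
  have hK₀0 : (0 : ℝ) < K₀ := by exact_mod_cast hK₀
  refine ⟨2 * B * C + 14 * B + 25 * B * K₀, by positivity, ?_⟩
  intro φ hφ hN W hW R K hR hK hR1 hR2 i hi c
  have hK1 : (1 : ℝ) ≤ K := by exact_mod_cast hK
  have hK0 : (0 : ℝ) < K := by linarith
  have hR0 : 0 < R := by linarith
  have hlog := Real.log_nonneg hK1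
  obtain ⟨ℓ, hℓ⟩ : ∃ ℓ : ℝ, ℓ = 1 + Real.log K := ⟨_, rfl⟩
  have hℓ1 : 1 ≤ ℓ := by rw [hℓ]; linarith
  obtain ⟨y, hy⟩ : ∃ y : ℝ, y = R / (K : ℝ) ^ 5 := ⟨_, rfl⟩
  have hy0 : 0 < y := by rw [hy]; positivity
  have hy1 : y ≤ 1 := by
    rw [hy, div_le_one (by positivity)]
    exact hR2
  have hyK : 1 ≤ y ^ 2 * (K : ℝ) ^ 3 := by
    rw [hy]
    exact range53N hK0 hR1
  obtain ⟨Y, hY⟩ : ∃ Y : ℝ, Y = y ^ (1 / 32 : ℝ) := ⟨_, rfl⟩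
  have hY0 : 0 < Y := by rw [hY]; exact Real.rpow_pos_of_pos hy0 _
  have hY32 : Y ^ 32 = y := by
    rw [hY, ← Real.rpow_natCast, ← Real.rpow_mul hy0.le]
    norm_num
  have hY1 : Y ≤ 1 := by
    rw [hY]
    exact Real.rpow_le_one hy0.le hy1 (by norm_num)
  have hYK : 1 ≤ Y ^ 64 * (K : ℝ) ^ 3 := by
    calc 1 ≤ y ^ 2 * (K : ℝ) ^ 3 := hyK
      _ = _ := by
        rw [← hY32]
        ring
  rw [← hℓ, ← hy, ← hY]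
  have hpos : 0 ≤ (K : ℝ) ^ 2 * ℓ * Y := by positivity
  rcases Nat.lt_or_ge K K₀ with hsm | hbig
  · have h1 := Pool.Agent.Helper92.OV6.os_triv (R := R) (φ := φ) (i := i) hB0.le hW.wb hK c
    have h2 : 1 ≤ K₀ * Y := by
      have h4 : (K : ℝ) ≤ K₀ := by exact_mod_cast hsm.le
      have h5 : (1 : ℝ) ≤ K₀ := by linarith
      refine (pow_le_pow_iff_left₀ zero_le_one (by positivity) (show (64 : ℕ) ≠ 0 by norm_num)).1 ?_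
      rw [one_pow, mul_pow]
      calc (1 : ℝ) ≤ Y ^ 64 * (K : ℝ) ^ 3 := hYK
        _ ≤ Y ^ 64 * (K₀ : ℝ) ^ 3 := by gcongr
        _ ≤ Y ^ 64 * (K₀ : ℝ) ^ 64 := mul_le_mul_of_nonneg_left (pow_le_pow_right₀ h5 (by norm_num)) (by positivity)
        _ = (K₀ : ℝ) ^ 64 * Y ^ 64 := by ring
    calc ‖os (oct K) K i W φ R c‖ ≤ 25 * B * (K : ℝ) ^ 2 := h1
      _ = 25 * B * (K : ℝ) ^ 2 * (1 * 1) := by ring
      _ ≤ 25 * B * (K : ℝ) ^ 2 * (ℓ * (K₀ * Y)) := by gcongr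
      _ = 25 * B * K₀ * ((K : ℝ) ^ 2 * ℓ * Y) := by ring
      _ ≤ _ := by
        refine mul_le_mul_of_nonneg_right ?_ hpos
        have : 0 ≤ 2 * B * C + 14 * B := by positivity
        linarith
  · obtain ⟨x, hx⟩ : ∃ x : ℝ, x = (K : ℝ) ^ (15 / 16 : ℝ) := ⟨_, rfl⟩
    have hx0 : 0 < x := by rw [hx]; positivity
    have hx16 : x ^ 16 = (K : ℝ) ^ 15 := by
      rw [hx, ← Real.rpow_natCast, ← Real.rpow_mul hK0.le, ← Real.rpow_natCast]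
      norm_num
    have hx1 : 1 ≤ x := by
      rw [hx]
      exact Real.one_le_rpow hK1 (by norm_num)
    obtain ⟨M, hM⟩ : ∃ M : ℕ, M = ⌊x⌋₊ := ⟨_, rfl⟩
    have hM1 : (M : ℝ) ≤ x := by
      rw [hM]
      exact Nat.floor_le hx0.le
    have hMn : 1 ≤ M := by
      rw [hM]
      exact Nat.le_floor (by exact_mod_cast hx1)
    have hxK : x ≤ K * Y := by
      refine (pow_le_pow_iff_left₀ hx0.le (by positivity) (show (64 : ℕ) ≠ 0 by norm_num)).1 ?_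
      have e1 : x ^ 64 = (K : ℝ) ^ 60 := by
        calc x ^ 64 = (x ^ 16) ^ 4 := by rw [← pow_mul]
          _ = _ := by rw [hx16, ← pow_mul]
      have e2 : ((K : ℝ) * Y) ^ 64 = (K : ℝ) ^ 61 * (Y ^ 64 * (K : ℝ) ^ 3) := by
        rw [mul_pow]
        ring
      rw [e1, e2]
      calc (K : ℝ) ^ 60 ≤ (K : ℝ) ^ 61 := pow_le_pow_right₀ hK1 (by norm_num)
        _ = (K : ℝ) ^ 61 * 1 := by ring
        _ ≤ _ := mul_le_mul_of_nonneg_left hYK (by positivity)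
    have hd := dec (K := K) (i := i) (M := M) (B := B) (R := R) (X := C * (ℓ * Y)) (W := W) (φ := φ) (c := c) hW hi hK hMn (by positivity)
      (fun p hp => by
        have h := hsq φ hφ hN R K c hbig hR0 hR1 hR2 p hp
        rw [← hx, ← hM, ← hy, ← hY, ← hℓ] at h
        exact h)
    refine hd.trans ?_
    have h3 : (K : ℝ) * M ≤ (K : ℝ) ^ 2 * ℓ * Y := by
      calc (K : ℝ) * M ≤ K * (K * Y) := mul_le_mul_of_nonneg_left (hM1.trans hxK) hK0.le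
        _ = (K : ℝ) ^ 2 * 1 * Y := by ring
        _ ≤ (K : ℝ) ^ 2 * ℓ * Y := by gcongr
    have h4 : 14 * B * ((K : ℝ) * M) ≤ 14 * B * ((K : ℝ) ^ 2 * ℓ * Y) := mul_le_mul_of_nonneg_left h3 (by positivity)
    have h5 : 0 ≤ 25 * B * K₀ * ((K : ℝ) ^ 2 * ℓ * Y) := by positivity
    calc 2 * B * (K : ℝ) ^ 2 * (C * (ℓ * Y)) + 14 * B * (K * M) ≤
        2 * B * (K : ℝ) ^ 2 * (C * (ℓ * Y)) + 14 * B * ((K : ℝ) ^ 2 * ℓ * Y) + 25 * B * K₀ * ((K : ℝ) ^ 2 * ℓ * Y) := by linarith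
      _ = _ := by ring

end

open MeasureTheory Real Set Filter Topology
open Pool.Agent.Helper22.AE
open Pool.Agent.Helper92.GC (dt sqa oct)
open Pool.Agent.Helper22.OV (Cond osum gam oph sg)
open Pool.Agent.Helper76.OV (Cw os)
open Pool.Agent.Helper53.OW (C6m Tw Pt pn)

/-- **The two-dimensional sixth derivative test** for the phases with `NdL`. -/
theorem td2N {c₁ B c₀ : ℝ} {ω : ℝ → ℝ} (hB : 1 ≤ B) (hω : ∀ ε, 0 < ε → 0 < ω ε) (hc₀ : 0 < c₀) : ∃ C : ℝ, 0 < C ∧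
    ∀ φ : ℝ → ℝ, C6m c₁ B ω φ → NdL c₀ φ → ∀ W : ℝ → ℂ, Cw B W → ∀ (R : ℝ) (K : ℕ), 1 ≤ R → 1 ≤ K → (K : ℝ) ^ 7 ≤ R ^ 2 → R ≤ (K : ℝ) ^ 5 →
      ∀ i : ℕ, i ≤ 2 → ∀ c : ℝ × ℝ,
        ‖os (oct K) K i W φ R c‖ ≤ C * ((K : ℝ) ^ 2 * (1 + log K) * (R / (K : ℝ) ^ 5) ^ (1 / 32 : ℝ)) :=
  td2N' hB hω hc₀

end Pool.Agent.Helper36.EL
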